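import Mathlib
import Pool.Agent.Helper58.LT.ClassDefs
import Pool.Agent.Helper58.LT.Spacing
import Pool.Agent.Helper58.LT.Pos

/-!
Case A of the bound on Lehmer numbers, the counting part: Cauchy-Schwarz over the cofactor `f`.
-/

namespace Pool.Agent.Helper69.LT1

open Finset Pool.Agent.Helper6.Lehmer Pool.Agent.Helper6.LehmerCount Pool.Agent.Helper58.LT

/-- Cauchy-Schwarz over the values of `f`: elements with the same `f` have values of `G` which differ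
by at most `m`. -/
theorem pair_count {τ : Type*} {S : Finset ℕ} (T : Finset τ) (G : τ → ℤ) (e : ℕ → τ) (f : ℕ → ℕ)
    (F : ℝ) (m : ℕ) (hF : 0 ≤ F) (he : ∀ n ∈ S, e n ∈ T) (hinj : Set.InjOn e (S : Set ℕ))
    (hf : ∀ n ∈ S, 1 ≤ f n ∧ (f n : ℝ) ≤ F)
    (hdiff : ∀ n ∈ S, ∀ n' ∈ S, f n = f n' → |G (e n) - G (e n')| ≤ (m : ℤ)) :
    (#S : ℝ) ^ 2 ≤ F * (2 * m + 1) * (en T G : ℝ) := by
  classical
  set J : Finset ℕ := Icc 1 ⌊F⌋₊ with hJ
  have hfJ : ∀ n ∈ S, f n ∈ J := by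
    intro n hn
    rw [hJ, mem_Icc]
    exact ⟨(hf n hn).1, Nat.le_floor (hf n hn).2⟩
  have hcardJ : (#J : ℝ) ≤ F := by
    rw [hJ, Nat.card_Icc]
    simpa using Nat.floor_le hF
  have hsum : #S = ∑ j ∈ J, #{n ∈ S | f n = j} := Finset.card_eq_sum_card_fiberwise hfJ
  have hcs : (#S : ℝ) ^ 2 ≤ #J * ∑ j ∈ J, (#{n ∈ S | f n = j} : ℝ) ^ 2 := by
    rw [hsum]
    push_cast
    exact sq_sum_le_card_mul_sum_sq
  have hpairs : ∑ j ∈ J, #{n ∈ S | f n = j} ^ 2 = #{z ∈ S ×ˢ S | f z.1 = f z.2} := by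
    rw [card_eq_sum_card_fiberwise (f := fun z : ℕ × ℕ => f z.1) (t := J)]
    · refine sum_congr rfl fun j _ => ?_
      rw [sq, ← card_product]
      congr 1
      ext ⟨x, y⟩
      simp only [mem_filter, mem_product]
      constructor
      · rintro ⟨⟨hx, h1⟩, hy, h2⟩
        exact ⟨⟨⟨hx, hy⟩, h1.trans h2.symm⟩, h1⟩
      · rintro ⟨⟨⟨hx, hy⟩, h1⟩, h2⟩
        exact ⟨⟨hx, h2⟩, hy, h1.symm.trans h2⟩
    · intro z hz
      rw [Finset.mem_coe, mem_filter, mem_product] at hz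
      exact hfJ _ hz.1.1
  have hle : #{z ∈ S ×ˢ S | f z.1 = f z.2} ≤ #{z ∈ T ×ˢ T | |G z.1 - G z.2| ≤ (m : ℤ)} := by
    apply card_le_card_of_injOn (fun z => (e z.1, e z.2))
    · intro z hz
      rw [Finset.mem_coe, mem_filter, mem_product] at hz
      rw [Finset.mem_coe, mem_filter, mem_product]
      exact ⟨⟨he _ hz.1.1, he _ hz.1.2⟩, hdiff _ hz.1.1 _ hz.1.2 hz.2⟩
    · intro z hz w hw h
      rw [Finset.mem_coe, mem_filter, mem_product] at hz hw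
      simp only [Prod.mk.injEq] at h
      exact Prod.ext (hinj hz.1.1 hw.1.1 h.1) (hinj hz.1.2 hw.1.2 h.2)
  have hle2 : #{z ∈ T ×ˢ T | |G z.1 - G z.2| ≤ (m : ℤ)} ≤ (2 * m + 1) * en T G := by
    rw [card_eq_sum_card_fiberwise (f := fun z : τ × τ => G z.1 - G z.2) (t := Icc (-(m : ℤ)) m)]
    · have hIcc : #(Icc (-(m : ℤ)) m) = 2 * m + 1 := by
        rw [Int.card_Icc]; omega
      rw [← hIcc, ← smul_eq_mul]
      apply sum_le_card_nsmul
      intro v _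
      refine le_trans (card_le_card ?_) (en_shift_le T G v)
      intro z hz
      rw [mem_filter, mem_filter] at hz
      rw [mem_filter]
      exact ⟨hz.1.1, by have := hz.2; omega⟩
    · intro z hz
      rw [Finset.mem_coe, mem_filter] at hz
      rw [Finset.mem_coe, mem_Icc]
      exact abs_le.1 hz.2
  have hfin : ∑ j ∈ J, (#{n ∈ S | f n = j} : ℝ) ^ 2 ≤ (2 * m + 1) * (en T G : ℝ) := by
    have h1 : ∑ j ∈ J, #{n ∈ S | f n = j} ^ 2 ≤ (2 * m + 1) * en T G := by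
      rw [hpairs]; exact hle.trans hle2
    exact_mod_cast h1
  calc (#S : ℝ) ^ 2 ≤ #J * ∑ j ∈ J, (#{n ∈ S | f n = j} : ℝ) ^ 2 := hcs
    _ ≤ F * ((2 * m + 1) * (en T G : ℝ)) := by
        apply mul_le_mul hcardJ hfin _ hF
        exact sum_nonneg fun j _ => by positivity
    _ = _ := by ring

/-- the primes of the cluster -/
noncomputable def clus (W β : ℕ) : Finset ℕ := by
  classical
  exact {p ∈ range (2 ^ (β + 1)) | p.Prime ∧ (2 : ℝ) ^ β * Real.exp (-4 * W) ≤ p}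

theorem mem_clus {W β p : ℕ} :
    p ∈ clus W β ↔ p < 2 ^ (β + 1) ∧ p.Prime ∧ (2 : ℝ) ^ β * Real.exp (-4 * W) ≤ p := by
  classical
  unfold clus
  rw [mem_filter, mem_range]

/-- Part (1) of case A. -/
theorem countA {l W k r α β : ℕ} {S : Finset ℕ}
    (hS : ∀ n ∈ S, Idx n k ∧ n ≤ 2 ^ l ∧ 2 ^ (l - 1) < n ∧ DataA n l W k r α β) :
    (#S : ℝ) ^ 2 ≤ ((2 : ℝ) ^ ((l : ℝ) / 2 - (β : ℝ) / 2) * Real.exp (W + 1)) * (2 * r + 11) *
      (mom (Lset k W ((2 : ℝ) ^ β * Real.exp (-4 * W)) (2 ^ α)) (psi (2 ^ l)) (clus W β)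
        (psi (2 ^ l)) 1 r : ℝ) := by
  classical
  set H : ℝ := (2 : ℝ) ^ β * Real.exp (-4 * W) with hH
  set F : ℝ := (2 : ℝ) ^ ((l : ℝ) / 2 - (β : ℝ) / 2) * Real.exp (W + 1) with hF
  have hF0 : 0 ≤ F := by positivity
  -- choose the data
  have hex : ∀ n ∈ S, ∃ x : ℕ × (Fin r → ℕ) × ℕ, n = x.1 * (∏ i, x.2.1 i) * x.2.2 ∧
      x.1 ∈ Lset k W H (2 ^ α) ∧ (∀ i, x.2.1 i ∈ clus W β) ∧ Function.Injective x.2.1 ∧
      1 < x.2.2 ∧ 2 ^ l ≤ (x.1 * ∏ i, x.2.1 i) ^ 2 ∧ (x.2.2 : ℝ) ≤ F := by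
    intro n hn
    obtain ⟨-, -, -, a, f, c, h1, h2, h3, h4, h5, h6, h7⟩ := hS n hn
    refine ⟨(a, c, f), h1, h2, ?_, h4, h5, h6, h7⟩
    intro i
    rw [mem_clus]
    exact ⟨(h3 i).2.2, (h3 i).1, (h3 i).2.1⟩
  choose! x hx using hex
  let e : ℕ → (Fin 1 → ℕ) × (Fin r → ℕ) := fun n => (fun _ => (x n).1, (x n).2.1)
  let G : (Fin 1 → ℕ) × (Fin r → ℕ) → ℤ := fun z => sm' (psi (2 ^ l)) z.1 + sm' (psi (2 ^ l)) z.2
  have hGe : ∀ n, G (e n) = psi (2 ^ l) (x n).1 + sm' (psi (2 ^ l)) (x n).2.1 := by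
    intro n
    simp only [G, e, sm', univ_unique, sum_singleton]
  -- the value of `G`
  have hval : ∀ n ∈ S, ((2 ^ l : ℕ) : ℝ) * (Real.log k - lam (x n).2.2) - (r + 1) < (G (e n) : ℝ) ∧
      (G (e n) : ℝ) < ((2 ^ l : ℕ) : ℝ) * (Real.log k - lam (x n).2.2) + 4 := by
    intro n hn
    obtain ⟨hidx, hn1, hn2, -⟩ := hS n hn
    obtain ⟨h1, h2, h3, h4, h5, h6, h7⟩ := hx n hn
    have hn2' : 2 ≤ n := by have := hidx.lehmer.one_lt; omega
    have hsq : Squarefree ((x n).1 * (∏ i, (x n).2.1 i) * (x n).2.2) := by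
      rw [← h1]; exact hidx.lehmer.squarefree
    have hlam1 : lam n = lam (x n).1 + ∑ i, lam ((x n).2.1 i) + lam (x n).2.2 := by
      conv_lhs => rw [h1]
      rw [lam_mul_of_squarefree hsq,
        lam_mul_of_squarefree (hsq.squarefree_of_dvd (Dvd.intro _ rfl)),
        lam_prod _ (fun i => (mem_clus.1 (h3 i)).2.1) h4]
    obtain ⟨hl1, hl2⟩ := lam_idx hidx.eq hn2'
    have hN : ((2 ^ l : ℕ) : ℝ) = (2 : ℝ) ^ l := by push_cast; rfl
    have hNpos : (0 : ℝ) < ((2 ^ l : ℕ) : ℝ) := by rw [hN]; positivity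
    have hn0 : (0 : ℝ) < n := by exact_mod_cast (show 0 < n by omega)
    have hNn : ((2 ^ l : ℕ) : ℝ) * (2 / n) < 4 := by
      have h8 : (2 ^ l : ℕ) < 2 * n := by
        rcases Nat.eq_zero_or_pos l with h0 | h0
        · subst h0; simp; omega
        · have : 2 ^ l = 2 * 2 ^ (l - 1) := by
            rw [← pow_succ']; congr 1; omega
          omega
      have h8R : ((2 ^ l : ℕ) : ℝ) < 2 * n := by exact_mod_cast h8
      rw [mul_div_assoc', div_lt_iff₀ hn0]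
      linarith
    have hs1 := sum_psi_le (N := 2 ^ l) (x n).2.1
    have hs2 := sum_psi_gt (N := 2 ^ l) (x n).2.1
    have hp1 : (psi (2 ^ l) (x n).1 : ℝ) ≤ ((2 ^ l : ℕ) : ℝ) * lam (x n).1 := Int.floor_le _
    have hp2 : ((2 ^ l : ℕ) : ℝ) * lam (x n).1 - 1 < (psi (2 ^ l) (x n).1 : ℝ) := Int.sub_one_lt_floor _
    have hsumlam : ((2 ^ l : ℕ) : ℝ) * lam (x n).1 + ((2 ^ l : ℕ) : ℝ) * ∑ i, lam ((x n).2.1 i) =
        ((2 ^ l : ℕ) : ℝ) * (lam n - lam (x n).2.2) := by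
      rw [hlam1]; ring
    have hlow : ((2 ^ l : ℕ) : ℝ) * (Real.log k - lam (x n).2.2) <
        ((2 ^ l : ℕ) : ℝ) * (lam n - lam (x n).2.2) :=
      mul_lt_mul_of_pos_left (by linarith) hNpos
    have hupp : ((2 ^ l : ℕ) : ℝ) * (lam n - lam (x n).2.2) ≤
        ((2 ^ l : ℕ) : ℝ) * (Real.log k - lam (x n).2.2) + ((2 ^ l : ℕ) : ℝ) * (2 / n) := by
      rw [← mul_add]
      exact mul_le_mul_of_nonneg_left (by linarith) hNpos.le
    rw [hGe]
    push_cast at hs1 hs2 hp1 hp2 hsumlam hlow hupp hNn ⊢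
    constructor <;> linarith
  have hmain := pair_count (S := S) (tup (Lset k W H (2 ^ α)) 1 ×ˢ tup (clus W β) r) G e
    (fun n => (x n).2.2) F (r + 5) hF0 ?_ ?_ ?_ ?_
  · refine hmain.trans (le_of_eq ?_)
    unfold mom
    push_cast
    ring
  · intro n hn
    obtain ⟨h1, h2, h3, h4, h5, h6, h7⟩ := hx n hn
    rw [mem_product, mem_tup, mem_tup]
    exact ⟨fun _ => h2, h3⟩
  · intro n hn n' hn' hee
    simp only [e, Prod.mk.injEq] at hee
    obtain ⟨h1, h2, h3, h4, h5, h6, h7⟩ := hx n hn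
    obtain ⟨h1', h2', h3', h4', h5', h6', h7'⟩ := hx n' hn'
    have ha : (x n).1 = (x n').1 := congrFun hee.1 0
    have hD : (x n).1 * (∏ i, (x n).2.1 i) = (x n').1 * (∏ i, (x n').2.1 i) := by
      rw [ha, hee.2]
    have hpos : ∀ m ∈ S, 0 < (x m).1 * (∏ i, (x m).2.1 i) := by
      intro m hm
      obtain ⟨g1, g2, g3, g4, g5, g6, g7⟩ := hx m hm
      rcases Nat.eq_zero_or_pos ((x m).1 * (∏ i, (x m).2.1 i)) with h0 | h0
      · rw [h0] at g1
        have := (hS m hm).1.lehmer.one_lt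
        omega
      · exact h0
    apply eq_of_divisor (hS n hn).1 (hS n' hn').1 (X := 2 ^ l) (D := (x n).1 * (∏ i, (x n).2.1 i))
      (hS n hn).2.1 (hS n' hn').2.1
    · exact Dvd.intro _ h1.symm
    · rw [hD]; exact Dvd.intro _ h1'.symm
    · conv_rhs => rw [h1]
      exact lt_mul_of_one_lt_right (hpos n hn) h5
    · rw [hD]
      conv_rhs => rw [h1']
      exact lt_mul_of_one_lt_right (hpos n' hn') h5'
    · exact h6
  · intro n hn
    obtain ⟨h1, h2, h3, h4, h5, h6, h7⟩ := hx n hn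
    exact ⟨h5.le, h7⟩
  · intro n hn n' hn' hff
    obtain ⟨g1, g2⟩ := hval n hn
    obtain ⟨g1', g2'⟩ := hval n' hn'
    rw [hff] at g1 g2
    rw [abs_le]
    constructor
    · have : -((r : ℝ) + 5) < (G (e n) : ℝ) - (G (e n') : ℝ) := by linarith
      have : -((r : ℤ) + 5) < G (e n) - G (e n') := by exact_mod_cast this
      push_cast
      omega
    · have : (G (e n) : ℝ) - (G (e n') : ℝ) < (r : ℝ) + 5 := by linarith
      have : G (e n) - G (e n') < (r : ℤ) + 5 := by exact_mod_cast this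
      push_cast
      omega

end Pool.Agent.Helper69.LT1
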