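import Mathlib
import Pool.Agent.Helper10.DivBound

/-!
The case `r = 1` of the bound on Lehmer numbers: for given `a` and `k` few pairs of primes
`p < q` satisfy `a p q - 1 = k φ(a) (p - 1) (q - 1)`.
-/

namespace Pool.Agent.Helper69.LT1

open Finset

/-- Divisor bound: `τ(N) ≤ C N^(1/3)`. -/
theorem divisors_card_le :
    ∃ C : ℝ, 0 < C ∧ ∀ N : ℕ, 1 ≤ N → ((N.divisors.card : ℕ) : ℝ) ≤ C * (N : ℝ) ^ ((1 : ℝ) / 3) := by
  obtain ⟨C, hC1, hC⟩ := Pool.Agent.Helper10.divisor_bound 3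
  have hCr : (1 : ℝ) ≤ C := by exact_mod_cast hC1
  refine ⟨(C : ℝ), by linarith, ?_⟩
  intro N hN
  have h := hC N (by omega)
  have h' : ((N.divisors.card : ℕ) : ℝ) ^ 3 ≤ (C : ℝ) * N := by
    have := h
    unfold Pool.Agent.Helper10.tau at this
    exact_mod_cast this
  have hN0 : (0 : ℝ) ≤ N := Nat.cast_nonneg N
  have h3 : ((C : ℝ) * (N : ℝ) ^ ((1 : ℝ) / 3)) ^ 3 = (C : ℝ) ^ 3 * N := by
    rw [mul_pow, ← Real.rpow_natCast ((N : ℝ) ^ ((1 : ℝ) / 3)) 3, ← Real.rpow_mul hN0]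
    norm_num
  have h4 : (C : ℝ) * N ≤ (C : ℝ) ^ 3 * N := by
    apply mul_le_mul_of_nonneg_right _ hN0
    nlinarith [mul_self_nonneg ((C : ℝ) - 1), mul_self_nonneg ((C : ℝ) + 1)]
  have h5 : ((N.divisors.card : ℕ) : ℝ) ^ 3 ≤ ((C : ℝ) * (N : ℝ) ^ ((1 : ℝ) / 3)) ^ 3 := by
    rw [h3]; exact h'.trans h4
  have h6 : (0 : ℝ) ≤ (C : ℝ) * (N : ℝ) ^ ((1 : ℝ) / 3) := by positivity
  exact le_of_pow_le_pow_left₀ (by norm_num) h6 h5

/-- The identity behind the case `r = 1`, over the integers. -/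
lemma ident (a D u v : ℤ) (h : a * (u + 1) * (v + 1) - 1 = (a + D) * u * v) :
    (D * u - a) * (D * v - a) = a ^ 2 + D * (a - 1) := by
  linear_combination (-D) * h

/-- In a solution both factors are positive. -/
lemma factor_pos (a D u v : ℤ) (ha : 1 ≤ a) (hD : 1 ≤ D) (hu : 1 ≤ u) (huv : u < v)
    (h : (D * u - a) * (D * v - a) = a ^ 2 + D * (a - 1)) : 0 < D * u - a := by
  by_contra hneg
  push Not at hneg
  have hDu : 1 ≤ D * u := by nlinarith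
  have hDv : D * u < D * v := by nlinarith
  have hpos : 0 < a ^ 2 + D * (a - 1) := by nlinarith
  have h1 : D * v - a < 0 := by
    by_contra h2
    push Not at h2
    have : (D * u - a) * (D * v - a) ≤ 0 := mul_nonpos_of_nonpos_of_nonneg hneg h2
    linarith
  have h3 : (a - D * u) * (a - D * v) < a ^ 2 := by nlinarith
  nlinarith

/-- Few pairs of primes (in fact: few pairs of integers `2 ≤ p < q`) satisfy
`a p q - 1 = k φ(a) (p - 1) (q - 1)`. -/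
theorem pairs_card_le :
    ∃ C : ℝ, 0 < C ∧ ∀ a m : ℕ, 1 ≤ a → a < m → m ≤ 2 * a →
      ∀ T : Finset (ℕ × ℕ),
        (∀ z ∈ T, 2 ≤ z.1 ∧ z.1 < z.2 ∧ a * z.1 * z.2 - 1 = m * (z.1 - 1) * (z.2 - 1)) →
        ((T.card : ℕ) : ℝ) ≤ C * (a : ℝ) ^ ((2 : ℝ) / 3) := by
  obtain ⟨C, hC, hdiv⟩ := divisors_card_le
  refine ⟨C * 2, by positivity, ?_⟩
  intro a m ha ham hm T hT
  obtain ⟨D, rfl⟩ : ∃ D, m = a + D := ⟨m - a, by omega⟩
  have hD1 : 1 ≤ D := by omega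
  have hDa : D ≤ a := by omega
  set N : ℕ := a ^ 2 + D * (a - 1) with hN
  have hN1 : 1 ≤ N := by
    have : 1 ≤ a ^ 2 := Nat.one_le_pow _ _ ha
    omega
  have hN2 : N ≤ 2 * a ^ 2 := by
    have h1 : D * (a - 1) ≤ a * a := Nat.mul_le_mul hDa (by omega)
    nlinarith
  have hNZ : (N : ℤ) = (a : ℤ) ^ 2 + D * ((a : ℤ) - 1) := by
    rw [hN]; push_cast [Nat.cast_sub ha]; ring
  -- the key facts for an element of `T`
  have key : ∀ z ∈ T, 0 < (D : ℤ) * ((z.1 : ℤ) - 1) - a ∧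
      ((D : ℤ) * ((z.1 : ℤ) - 1) - a) * ((D : ℤ) * ((z.2 : ℤ) - 1) - a) = N := by
    intro z hz
    obtain ⟨h2, hlt, he⟩ := hT z hz
    have hz1 : (1 : ℤ) ≤ (z.1 : ℤ) - 1 := by
      have : (2 : ℤ) ≤ z.1 := by exact_mod_cast h2
      linarith
    have hz2 : (z.1 : ℤ) - 1 < (z.2 : ℤ) - 1 := by
      have : (z.1 : ℤ) < z.2 := by exact_mod_cast hlt
      linarith
    have hpos : 1 ≤ a * z.1 * z.2 := by
      have : 0 < a * z.1 * z.2 := by
        apply Nat.mul_pos (Nat.mul_pos (by omega) (by omega)) (by omega)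
      omega
    have heZ : (a : ℤ) * z.1 * z.2 - 1 = ((a : ℤ) + D) * ((z.1 : ℤ) - 1) * ((z.2 : ℤ) - 1) := by
      have h : ((a * z.1 * z.2 - 1 : ℕ) : ℤ) = (((a + D) * (z.1 - 1) * (z.2 - 1) : ℕ) : ℤ) := by
        rw [he]
      rw [Nat.cast_sub hpos] at h
      push_cast [Nat.cast_sub (show 1 ≤ z.1 by omega), Nat.cast_sub (show 1 ≤ z.2 by omega)] at h
      linarith
    have hid := ident (a : ℤ) D ((z.1 : ℤ) - 1) ((z.2 : ℤ) - 1) (by
      rw [sub_add_cancel, sub_add_cancel]; exact heZ)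
    refine ⟨factor_pos (a : ℤ) D _ _ (by exact_mod_cast ha) (by exact_mod_cast hD1) hz1 hz2 hid, ?_⟩
    rw [hid, hNZ]
  -- the map to divisors
  have hcard : T.card ≤ N.divisors.card := by
    apply Finset.card_le_card_of_injOn (fun z => ((D : ℤ) * ((z.1 : ℤ) - 1) - a).toNat)
    · intro z hz
      obtain ⟨hp, he⟩ := key z hz
      simp only [Finset.mem_coe, Nat.mem_divisors]
      refine ⟨?_, by omega⟩
      have h1 : (((D : ℤ) * ((z.1 : ℤ) - 1) - a).toNat : ℤ) = (D : ℤ) * ((z.1 : ℤ) - 1) - a :=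
        Int.toNat_of_nonneg hp.le
      have h2 : ((((D : ℤ) * ((z.1 : ℤ) - 1) - a).toNat : ℕ) : ℤ) ∣ (N : ℤ) := by
        rw [h1, ← he]
        exact dvd_mul_right _ _
      exact_mod_cast h2
    · intro z hz w hw hzw
      obtain ⟨hp, he⟩ := key z hz
      obtain ⟨hp', he'⟩ := key w hw
      simp only at hzw
      have h1 : (D : ℤ) * ((z.1 : ℤ) - 1) - a = (D : ℤ) * ((w.1 : ℤ) - 1) - a := by
        rw [← Int.toNat_of_nonneg hp.le, ← Int.toNat_of_nonneg hp'.le, hzw]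
      have hD0 : (D : ℤ) ≠ 0 := by
        have : (1 : ℤ) ≤ D := by exact_mod_cast hD1
        omega
      have h2 : (z.1 : ℤ) = w.1 := by
        have : (D : ℤ) * ((z.1 : ℤ) - 1) = D * ((w.1 : ℤ) - 1) := by linarith
        have := mul_left_cancel₀ hD0 this
        linarith
      have h3 : (z.2 : ℤ) = w.2 := by
        have hne : (D : ℤ) * ((z.1 : ℤ) - 1) - a ≠ 0 := by omega
        have e : ((D : ℤ) * ((z.1 : ℤ) - 1) - a) * ((D : ℤ) * ((z.2 : ℤ) - 1) - a)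
            = ((D : ℤ) * ((z.1 : ℤ) - 1) - a) * ((D : ℤ) * ((w.2 : ℤ) - 1) - a) := by
          rw [he]; rw [h1]; exact he'.symm
        have e2 := mul_left_cancel₀ hne e
        have e3 : (D : ℤ) * ((z.2 : ℤ) - 1) = D * ((w.2 : ℤ) - 1) := by linarith
        have := mul_left_cancel₀ hD0 e3
        linarith
      apply Prod.ext
      · exact_mod_cast h2
      · exact_mod_cast h3
  have h1 : ((T.card : ℕ) : ℝ) ≤ ((N.divisors.card : ℕ) : ℝ) := by exact_mod_cast hcard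
  have h2 := hdiv N hN1
  have h3 : (N : ℝ) ^ ((1 : ℝ) / 3) ≤ 2 * (a : ℝ) ^ ((2 : ℝ) / 3) := by
    have hN2r : (N : ℝ) ≤ 2 * (a : ℝ) ^ 2 := by exact_mod_cast hN2
    calc (N : ℝ) ^ ((1 : ℝ) / 3) ≤ (2 * (a : ℝ) ^ 2) ^ ((1 : ℝ) / 3) :=
          Real.rpow_le_rpow (Nat.cast_nonneg _) hN2r (by norm_num)
      _ = (2 : ℝ) ^ ((1 : ℝ) / 3) * (a : ℝ) ^ ((2 : ℝ) / 3) := by
          rw [Real.mul_rpow (by norm_num) (by positivity), ← Real.rpow_natCast (a : ℝ) 2,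
            ← Real.rpow_mul (Nat.cast_nonneg _)]
          norm_num
      _ ≤ 2 * (a : ℝ) ^ ((2 : ℝ) / 3) := by
          apply mul_le_mul_of_nonneg_right _ (by positivity)
          calc (2 : ℝ) ^ ((1 : ℝ) / 3) ≤ (2 : ℝ) ^ (1 : ℝ) :=
                Real.rpow_le_rpow_of_exponent_le (by norm_num) (by norm_num)
            _ = 2 := Real.rpow_one 2
  calc ((T.card : ℕ) : ℝ) ≤ C * (N : ℝ) ^ ((1 : ℝ) / 3) := h1.trans h2
    _ ≤ C * (2 * (a : ℝ) ^ ((2 : ℝ) / 3)) := mul_le_mul_of_nonneg_left h3 hC.le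
    _ = C * 2 * (a : ℝ) ^ ((2 : ℝ) / 3) := by ring

/-- The case `r = 1`: for given `a, k` with `a < k φ(a) ≤ 2 a` at most `C a^(2/3)` pairs of primes
`p < q` satisfy `a p q - 1 = k φ(a) (p - 1) (q - 1)`. -/
theorem r_one :
    ∃ C : ℝ, 0 < C ∧ ∀ a k : ℕ, 1 ≤ a → a < k * Nat.totient a → k * Nat.totient a ≤ 2 * a →
      ∀ T : Finset (ℕ × ℕ),
        (∀ z ∈ T, z.1.Prime ∧ z.2.Prime ∧ z.1 < z.2 ∧
          a * z.1 * z.2 - 1 = k * Nat.totient a * (z.1 - 1) * (z.2 - 1)) →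
        ((T.card : ℕ) : ℝ) ≤ C * (a : ℝ) ^ ((2 : ℝ) / 3) := by
  obtain ⟨C, hC, h⟩ := pairs_card_le
  refine ⟨C, hC, ?_⟩
  intro a k ha h1 h2 T hT
  exact h a (k * Nat.totient a) ha h1 h2 T (fun z hz =>
    ⟨(hT z hz).1.two_le, (hT z hz).2.2.1, (hT z hz).2.2.2⟩)

end Pool.Agent.Helper69.LT1
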